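import Pool.Agent.Helper84.WC.Basic

/-! WC-7: Borel cells of the cone. -/

open MeasureTheory Topology
open scoped ENNReal ZeroAtInfty InnerProductSpace

namespace Pool.Agent.Helper84.WC

section WC7
variable {M : Type*} [MetricSpace M] [CompactSpace M] [MeasurableSpace M] [BorelSpace M]

/-- a countable Borel partition into pieces of small diameter and positive measure -/
private theorem wc7_part (m : Measure M) [IsProbabilityMeasure m] [m.IsOpenPosMeasure]
    {ε : ℝ} (hε : 0 < ε) :
    ∃ p : M → ℕ, Measurable p ∧ (∀ x y, p x = p y → dist x y ≤ ε) ∧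
      ∀ x, 0 < m (p ⁻¹' {p x}) := by
  classical
  have hne : Nonempty M := by
    by_contra h
    rw [not_nonempty_iff] at h
    have h1 : m Set.univ = 1 := measure_univ
    rw [Set.univ_eq_empty_iff.mpr h, measure_empty] at h1
    exact zero_ne_one h1
  set u := TopologicalSpace.denseSeq M with hu
  have hd : ∀ x : M, ∃ i, dist x (u i) < ε / 4 := by
    intro x
    have := TopologicalSpace.denseRange_denseSeq M
    obtain ⟨i, hi⟩ := this.exists_dist_lt x (by positivity : 0 < ε / 4)
    exact ⟨i, hi⟩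
  set p0 : M → ℕ := fun x => Nat.find (hd x) with hp0
  have hp0m : Measurable p0 := by
    apply measurable_find
    intro k
    exact measurableSet_lt (by fun_prop) measurable_const
  have hp0d : ∀ x, dist x (u (p0 x)) < ε / 4 := fun x => Nat.find_spec (hd x)
  have hd1 : ∀ x : M, ∃ i, 0 < m (p0 ⁻¹' {i}) ∧ dist x (u i) < ε / 2 := by
    intro x
    by_contra hcon
    push Not at hcon
    have hball : 0 < m (Metric.ball x (ε / 4)) := Metric.measure_ball_pos m x (by positivity)
    have hcov : Metric.ball x (ε / 4) ⊆ ⋃ i, (Metric.ball x (ε / 4) ∩ p0 ⁻¹' {i}) := by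
      intro y hy
      exact Set.mem_iUnion.mpr ⟨p0 y, hy, rfl⟩
    have hz : m (⋃ i, (Metric.ball x (ε / 4) ∩ p0 ⁻¹' {i})) = 0 := by
      rw [measure_iUnion_null_iff]
      intro i
      by_cases h0 : 0 < m (p0 ⁻¹' {i})
      · have h1 := hcon i h0
        have : Metric.ball x (ε / 4) ∩ p0 ⁻¹' {i} = ∅ := by
          rw [Set.eq_empty_iff_forall_notMem]
          rintro y ⟨hy1, hy2⟩
          have h2 := hp0d y
          rw [Set.mem_preimage, Set.mem_singleton_iff] at hy2
          rw [hy2] at h2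
          rw [Metric.mem_ball] at hy1
          have h3 := dist_triangle x y (u i)
          rw [dist_comm x y] at h3
          linarith
        rw [this, measure_empty]
      · have h1 : m (p0 ⁻¹' {i}) = 0 := by simpa using h0
        exact measure_mono_null Set.inter_subset_right h1
    have := measure_mono_null hcov hz
    exact absurd this hball.ne'
  set p1 : M → ℕ := fun x => Nat.find (hd1 x) with hp1
  have hp1m : Measurable p1 := by
    apply measurable_find
    intro k
    by_cases h0 : 0 < m (p0 ⁻¹' {k})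
    · simp only [h0, true_and]
      exact measurableSet_lt (by fun_prop) measurable_const
    · simp only [h0, false_and]
      exact MeasurableSet.const False
  have hp1s : ∀ x, 0 < m (p0 ⁻¹' {p1 x}) ∧ dist x (u (p1 x)) < ε / 2 :=
    fun x => Nat.find_spec (hd1 x)
  set p : M → ℕ := fun x => if 0 < m (p0 ⁻¹' {p0 x}) then p0 x else p1 x with hp
  have hps : ∀ x, 0 < m (p0 ⁻¹' {p x}) ∧ dist x (u (p x)) < ε / 2 := by
    intro x
    by_cases h0 : 0 < m (p0 ⁻¹' {p0 x})
    · simp only [hp, if_pos h0]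
      exact ⟨h0, by linarith [hp0d x]⟩
    · simp only [hp, if_neg h0]
      exact hp1s x
  refine ⟨p, ?_, ?_, ?_⟩
  · apply Measurable.ite _ hp0m hp1m
    have : {x | 0 < m (p0 ⁻¹' {p0 x})} = p0 ⁻¹' {i | 0 < m (p0 ⁻¹' {i})} := rfl
    rw [this]
    exact hp0m (MeasurableSet.of_discrete)
  · intro x y hxy
    have h1 := (hps x).2
    have h2 := (hps y).2
    rw [hxy] at h1
    have h3 := dist_triangle x (u (p y)) y
    rw [dist_comm (u (p y)) y] at h3
    linarith
  · intro x
    refine lt_of_lt_of_le (hps x).1 (measure_mono ?_)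
    intro y hy
    rw [Set.mem_preimage, Set.mem_singleton_iff] at hy ⊢
    have h1 : 0 < m (p0 ⁻¹' {p0 y}) := by
      rw [hy]
      exact (hps x).1
    simp only [hp, if_pos h1]
    exact hy

theorem exists_cells (m : Measure M) [IsProbabilityMeasure m] [m.IsOpenPosMeasure] :
    ∃ c : Cone M → ℕ, Measurable c ∧ (∀ z w, c z = c w → coneDist z w ≤ 2) ∧
      (∀ (n : ℕ) (z : Cone M), ∃ A : ℕ → Set (Cone M), (∀ k, MeasurableSet (A k)) ∧
        (∀ i j, i ≠ j → Disjoint (A i) (A j)) ∧ (∀ k, A k ⊆ stripe M n ∩ c ⁻¹' {c z}) ∧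
        (∀ k, 0 < coneMeasure m (A k) ∧ coneMeasure m (A k) < ∞)) := by
  have hpart : ∀ k : ℕ, ∃ p : M → ℕ, Measurable p ∧
      (∀ x y, p x = p y → dist x y ≤ 1 / ((k : ℝ) + 1)) ∧ ∀ x, 0 < m (p ⁻¹' {p x}) :=
    fun k => wc7_part m (by positivity)
  choose p hpm hpd hpp using hpart
  refine ⟨fun z => Nat.pair ⌊(z.2 : ℝ)⌋₊ (p ⌊(z.2 : ℝ)⌋₊ z.1), ?_, ?_, ?_⟩
  · -- measurable
    have h1 : Measurable (fun y : M × ℕ => p y.2 y.1) :=
      measurable_from_prod_countable_left (fun k => hpm k)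
    have h2 : Measurable (fun z : Cone M => (z.1, ⌊(z.2 : ℝ)⌋₊)) := by
      apply Measurable.prodMk measurable_fst
      exact Nat.measurable_floor.comp (measurable_subtype_coe.comp measurable_snd)
    have h3 : Measurable (fun z : Cone M => (⌊(z.2 : ℝ)⌋₊, p ⌊(z.2 : ℝ)⌋₊ z.1)) :=
      Measurable.prodMk (measurable_snd.comp h2) (h1.comp h2)
    exact (measurable_of_countable (fun y : ℕ × ℕ => Nat.pair y.1 y.2)).comp h3
  · intro z w h
    simp only [Nat.pair_eq_pair] at h
    obtain ⟨h1, h2⟩ := h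
    rw [← h1] at h2
    have h3 := hpd _ _ _ h2
    have hz1 : (1 : ℝ) ≤ z.2 := z.2.2
    have hw1 : (1 : ℝ) ≤ w.2 := w.2.2
    set k := ⌊(z.2 : ℝ)⌋₊ with hk
    have hz2 : (k : ℝ) ≤ z.2 := Nat.floor_le (by linarith)
    have hz3 : (z.2 : ℝ) < k + 1 := Nat.lt_floor_add_one _
    have hw2 : (k : ℝ) ≤ w.2 := by
      rw [h1]; exact Nat.floor_le (by linarith)
    have hw3 : (w.2 : ℝ) < k + 1 := by
      rw [h1]; exact Nat.lt_floor_add_one _
    unfold coneDist
    have h4 : |(z.2 : ℝ) - w.2| ≤ 1 := by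
      rw [abs_le]; constructor <;> linarith
    have h5 : min (z.2 : ℝ) (w.2 : ℝ) ≤ k + 1 := le_trans (min_le_left _ _) hz3.le
    have hk0 : (0 : ℝ) < (k : ℝ) + 1 := by positivity
    have h6 : min (z.2 : ℝ) (w.2 : ℝ) * dist z.1 w.1 ≤ (k + 1) * (1 / ((k : ℝ) + 1)) :=
      mul_le_mul h5 h3 dist_nonneg hk0.le
    have h7 : ((k : ℝ) + 1) * (1 / ((k : ℝ) + 1)) = 1 := by
      field_simp
    linarith
  · intro n z
    set k := ⌊(z.2 : ℝ)⌋₊ with hk
    have hz1 : (1 : ℝ) ≤ z.2 := z.2.2
    have hk1 : 1 ≤ k := by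
      rw [hk]
      exact Nat.one_le_floor_iff _ |>.mpr hz1
    have hk1' : (1 : ℝ) ≤ k := by exact_mod_cast hk1
    set P : Set M := p k ⁻¹' {p k z.1} with hP
    set a : ℕ → ℝ := fun j => (k : ℝ) + 1 - (1 / 2) ^ (n + 1) - (1 / 2) ^ (n + 1 + j) with ha
    have ha_lt : ∀ j, a j < a (j + 1) := by
      intro j
      simp only [ha]
      have : (1 / 2 : ℝ) ^ (n + 1 + (j + 1)) < (1 / 2 : ℝ) ^ (n + 1 + j) :=
        pow_lt_pow_right_of_lt_one₀ (by norm_num) (by norm_num) (by omega)
      linarith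
    have ha_mono : StrictMono a := strictMono_nat_of_lt_succ ha_lt
    have ha0 : a 0 = (k : ℝ) + 1 - (1 / 2) ^ n := by
      simp only [ha, add_zero]
      rw [pow_succ]
      ring
    have hpow1 : (1 / 2 : ℝ) ^ n ≤ 1 := pow_le_one₀ (by norm_num) (by norm_num)
    have ha_lb : ∀ j, (k : ℝ) ≤ a j := by
      intro j
      have h1 := ha_mono.monotone (Nat.zero_le j)
      linarith
    have ha_ub : ∀ j, a j < (k : ℝ) + 1 - (1 / 2) ^ (n + 1) := by
      intro j
      simp only [ha]
      have : 0 < (1 / 2 : ℝ) ^ (n + 1 + j) := by positivity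
      linarith
    set J : ℕ → Set (Set.Ici (1 : ℝ)) := fun j => Subtype.val ⁻¹' Set.Ico (a j) (a (j + 1)) with hJ
    have hJm : ∀ j, MeasurableSet (J j) := fun j =>
      measurable_subtype_coe measurableSet_Ico
    have hPm : MeasurableSet P := hpm k (measurableSet_singleton _)
    refine ⟨fun j => P ×ˢ J j, ?_, ?_, ?_, ?_⟩
    · intro j
      exact hPm.prod (hJm j)
    · intro i j hij
      rw [Set.disjoint_left]
      rintro ⟨x, t⟩ ⟨_, h1⟩ ⟨_, h2⟩
      simp only [hJ, Set.mem_preimage, Set.mem_Ico] at h1 h2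
      rcases lt_or_gt_of_ne hij with h | h
      · have := ha_mono.monotone (Nat.succ_le_of_lt h)
        simp only [Nat.succ_eq_add_one] at this
        linarith [h1.2, h2.1]
      · have := ha_mono.monotone (Nat.succ_le_of_lt h)
        simp only [Nat.succ_eq_add_one] at this
        linarith [h2.2, h1.1]
    · rintro j ⟨x, t⟩ ⟨h1, h2⟩
      simp only [hJ, Set.mem_preimage, Set.mem_Ico] at h2
      have h3 : (k : ℝ) ≤ t := le_trans (ha_lb j) h2.1
      have hhalf : (0 : ℝ) < (1 / 2) ^ (n + 1) := by positivity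
      have h4 : (t : ℝ) < k + 1 - (1 / 2) ^ (n + 1) := lt_trans h2.2 (ha_ub _)
      have hfl : ⌊(t : ℝ)⌋₊ = k := by
        rw [Nat.floor_eq_iff (by linarith)]
        exact ⟨h3, by linarith⟩
      have hfl' : ⌊(t : ℝ)⌋ = (k : ℤ) := by
        rw [Int.floor_eq_iff]
        push_cast
        exact ⟨h3, by linarith⟩
      have hfr : Int.fract (t : ℝ) = t - k := by
        rw [Int.fract, hfl']
        push_cast
        rfl
      refine ⟨?_, ?_⟩
      · show 1 - (1 / 2 : ℝ) ^ n ≤ Int.fract (t : ℝ) ∧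
          Int.fract (t : ℝ) < 1 - (1 / 2 : ℝ) ^ (n + 1)
        rw [hfr]
        have h5 := ha_mono.monotone (Nat.zero_le j)
        rw [ha0] at h5
        constructor
        · linarith [h2.1]
        · linarith
      · show Nat.pair ⌊(t : ℝ)⌋₊ (p ⌊(t : ℝ)⌋₊ x) = Nat.pair k (p k z.1)
        rw [hfl]
        have h1' : p k x = p k z.1 := h1
        rw [h1']
    · intro j
      have hJsub : Set.Ico (a j) (a (j + 1)) ⊆ Set.Ici (1 : ℝ) := by
        intro t ht
        exact le_trans (le_trans hk1' (ha_lb j)) ht.1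
      have hJv : ((volume : Measure ℝ).comap (Subtype.val : Set.Ici (1 : ℝ) → ℝ)) (J j) =
          ENNReal.ofReal (a (j + 1) - a j) := by
        rw [(MeasurableEmbedding.subtype_coe measurableSet_Ici).comap_apply]
        simp only [hJ]
        rw [Subtype.image_preimage_coe, Set.inter_eq_self_of_subset_right hJsub, Real.volume_Ico]
      have hA : coneMeasure m (P ×ˢ J j) = m P * ENNReal.ofReal (a (j + 1) - a j) := by
        unfold coneMeasure
        rw [Measure.prod_prod, hJv]
      rw [hA]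
      refine ⟨?_, ?_⟩
      · apply ENNReal.mul_pos (hpp k z.1).ne'
        have := ha_lt j
        simp only [ne_eq, ENNReal.ofReal_eq_zero, not_le]
        linarith
      · exact ENNReal.mul_lt_top (measure_lt_top m P) ENNReal.ofReal_lt_top

end WC7

end Pool.Agent.Helper84.WC
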